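import Pool.Agent.H19.KN.Defs
import Pool.Agent.H62.MK.Defs3

/-!
# Project KEW, board kna_modules: targets (helper19)

Blocks (c) ROOT, NETA and (d) WA of /team-store/H19_KEW.md.
-/

namespace Pool.Agent.H19.KN

open Pool.Agent.H62.MK Polynomial Function

universe u v w

/-! ### Small symbols -/

/-- TID: the identity `{1+a, 1+b} = -{1-ab, b(1+a)/(1+b)}`. -/
def T_TID : Prop :=
  ∀ (F : Type u) [Field F] (m : ℕ) (a b : F) (u v w t : Fˣ), (u : F) = 1 + a → (v : F) = 1 + b →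
    (w : F) = 1 - a * b → (t : F) = b * (1 + a) / (1 + b) →
    ∀ y : MilnorK F m, cup u (cup v y) = -cup w (cup t y)

/-- GRP: the small units are a group (`1 ≤ n`), decreasing in `n`. -/
def T_GRP : Prop :=
  ∀ (F : Type u) [Field F] (O : Subring F) (π : F) (q E : ℕ), Good0 O π q E → ∀ n : ℕ, 1 ≤ n →
    (1 : Fˣ) ∈ Small π n O ∧ (∀ u ∈ Small π n O, ∀ v ∈ Small π n O, u * v ∈ Small π n O) ∧
    (∀ u ∈ Small π n O, u⁻¹ ∈ Small π n O) ∧
    (∀ N, n ≤ N → Small π N O ⊆ Small π n O) ∧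
    (∀ a ∈ O, 1 + π ^ n * a ≠ 0) ∧
    (∀ u ∈ Small π n O, (u : F) ∈ O ∧ ((u⁻¹ : Fˣ) : F) ∈ O)

/-- ROOT: `1 + π ^ n O ⊆ (Fˣ) ^ q (1 + π ^ M O)` for all `M`. -/
def T_ROOT : Prop :=
  ∀ (F : Type u) [Field F] (O : Subring F) (π : F) (q E : ℕ), Good0 O π q E → 1 ≤ q →
    ∀ n : ℕ, 2 * E + 1 ≤ n →
    ∀ u ∈ Small π n O, ∀ M : ℕ, ∃ v : Fˣ, ∃ u' ∈ Small π M O, u = v ^ q * u'

/-- UMEM: elementary properties of the group of small symbols. -/
def T_UMEM : Prop :=
  ∀ (F : Type u) [Field F] (S : Subring F) (π : F) (q n : ℕ),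
    (∀ m (g : Fˣ), ∀ x ∈ USub q π n S m, cup g x ∈ USub q π n S (m + 1)) ∧
    (∀ m, ∀ u ∈ Small π n S, ∀ y : MilnorK F m, cup u y ∈ USub q π n S (m + 1)) ∧
    (∀ m (x : MilnorK F m), q • x ∈ USub q π n S m) ∧
    (∀ m (a : Fin m → Fˣ) (i : Fin m), a i ∈ Small π n S → sym a ∈ USub q π n S m) ∧
    (∀ (S' : Subring F) (n' : ℕ), Small π n S ⊆ Small π n' S' →
      ∀ m, USub q π n S m ≤ USub q π n' S' m)

/-- UEQ: modulo `q` the group of small symbols does not depend on `n ≥ 2E + 1`. -/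
def T_UEQ : Prop :=
  ∀ (F : Type u) [Field F] (O : Subring F) (π : F) (q E : ℕ), Good0 O π q E → 1 ≤ q →
    ∀ n M m : ℕ, 2 * E + 1 ≤ n → USub q π n O m ≤ USub q π M O m

/-- UMAP: functoriality. -/
def T_UMAP : Prop :=
  ∀ (F L : Type u) [Field F] [Field L] (φ : F →+* L) (S : Subring F) (S' : Subring L) (π : F)
    (q n : ℕ), (∀ a ∈ S, φ a ∈ S') → ∀ m, ∀ x ∈ USub q π n S m,
    Pool.Agent.H62.MK.map φ m x ∈ USub q (φ π) n S' m

/-- SLOT: an entry of a symbol can be moved to the front, up to sign. -/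
def T_SLOT : Prop :=
  ∀ (F : Type u) [Field F] (m : ℕ) (a : Fin (m + 1) → Fˣ) (i : Fin (m + 1)),
    sym a = cup (a i) (sym fun j => a (i.succAbove j)) ∨
    sym a = -cup (a i) (sym fun j => a (i.succAbove j))

/-- TELE: the difference of two symbols is a sum of symbols with one entry `a i / b i` and the
other entries `a j` or `b j`. -/
def T_TELE : Prop :=
  ∀ (F : Type u) [Field F] (m : ℕ) (a b : Fin m → Fˣ),
    sym a - sym b ∈ AddSubgroup.closure {z : MilnorK F m | ∃ (c : Fin m → Fˣ) (i : Fin m),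
      z = sym c ∧ c i = a i / b i ∧ ∀ j, j ≠ i → c j = a j ∨ c j = b j}

/-! ### Tame symbols -/

/-- TCU: the tame symbol of `{u} · x` for a unit `u` of the valuation ring. -/
def T_TCU : Prop :=
  ∀ (F : Type u) (κ : Type u) [Field F] [Field κ] (D : DV F κ) (u : Fˣ), D.ord u = 0 →
    (∀ x : MilnorK F 0, tame D 0 (cup u x) = 0) ∧
    ∀ (m : ℕ) (x : MilnorK F (m + 1)), tame D (m + 1) (cup u x) = -cup (D.ures u) (tame D m x)

/-- TSL: the tame symbol of a symbol with one entry that is a unit with small residue is small;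
it is zero if the residue of that entry is `1`. -/
def T_TSL : Prop :=
  ∀ (F : Type u) (κ : Type u) [Field F] [Field κ] (D : DV F κ) (m : ℕ) (a : Fin (m + 1) → Fˣ)
    (i : Fin (m + 1)), D.ord (a i) = 0 →
    (D.ures (a i) = 1 → tame D m (sym a) = 0) ∧
    ∀ (q n : ℕ) (π : κ) (S : Subring κ), D.ures (a i) ∈ Small π n S →
      tame D m (sym a) ∈ USub q π n S m

/-- TZP: the tame symbol of a symbol of units is zero; the tame symbol of `{p, g_1, ..}` for a
uniformiser `p` and units `g_i` is the symbol of the residues. -/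
def T_TZP : Prop :=
  ∀ (F : Type u) (κ : Type u) [Field F] [Field κ] (D : DV F κ) (m : ℕ),
    (∀ a : Fin (m + 1) → Fˣ, (∀ i, D.ord (a i) = 0) → tame D m (sym a) = 0) ∧
    ∀ (p : Fˣ) (g : Fin m → Fˣ), D.ord p = 1 → (∀ i, D.ord (g i) = 0) →
      tame D m (cup p (sym g)) = sym fun i => D.ures (g i)

/-- FPO: order and residue of polynomials at the place of an irreducible polynomial. -/
def T_FPO : Prop :=
  ∀ (K : Type u) [Field K] (v : MI K) (f : K[X]), f ≠ 0 →
    ((pu f : (RatFunc K)ˣ) : RatFunc K) = algebraMap K[X] (RatFunc K) f ∧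
    (¬ v.1 ∣ f → (finPlace v.1).ord (pu f) = 0 ∧
      (((finPlace v.1).ures (pu f) : (AdjoinRoot v.1)ˣ) : AdjoinRoot v.1) = AdjoinRoot.mk v.1 f) ∧
    (finPlace v.1).ord (pu v.1) = 1

/-- INF: a symbol with an entry `f / (leading monomial of f)` has trivial residue at infinity. -/
def T_INF : Prop :=
  ∀ (K : Type u) [Field K] (m : ℕ) (a : Fin (m + 1) → (RatFunc K)ˣ) (i : Fin (m + 1)) (f : K[X]),
    f ≠ 0 → a i = pu f / pu (lm f) → tameInf K m (sym a) = 0

/-- RECIP: Weil reciprocity (block of helper14 / helper16; used as a hypothesis here). -/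
def T_RECIP : Prop :=
  ∀ (K : Type u) [Field K] (m : ℕ) (x : MilnorK (RatFunc K) (m + 1)), ∃ S : Finset (MI K),
    (∀ v : MI K, v ∉ S → tame (finPlace v.1) m x = 0) ∧
    ∑ v ∈ S, polyNorm v.1 m (tame (finPlace v.1) m x) = -tameInf K m x

/-! ### Integral closures -/

/-- GOODE: the hypotheses pass to the integral closure in an algebraic extension. -/
def T_GOODE : Prop :=
  ∀ (K : Type u) [Field K] (O : Subring K) (π : K) (q E : ℕ), Good O π q E →
    ∀ (L : Type u) [Field L] [Algebra K L], Algebra.IsAlgebraic K L →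
      Good (icl O L) (algebraMap K L π) q E ∧ IntClosed (icl O L) ∧
      (∀ a ∈ O, algebraMap K L a ∈ icl O L) ∧
      (IntClosed O → ∀ a : K, algebraMap K L a ∈ icl O L → a ∈ O) ∧
      ∀ (M : Type u) [Field M] [Algebra K M] [Algebra L M] [IsScalarTower K L M],
        icl (icl O L) M = icl O M

/-- DISC: after multiplication by a fixed power of `π` integral elements of `K[t]/(P)` are
polynomials with coefficients in `O` in `π ^ k t`. -/
def T_DISC : Prop :=
  ∀ (K : Type u) [Field K] [CharZero K] (O : Subring K) (π : K) (q E : ℕ), Good O π q E →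
    IntClosed O → ∀ (P : MI K) (k1 : ℕ), ∃ k, k1 ≤ k ∧ ∃ M0 : ℕ,
      ∀ b ∈ icl O (AdjoinRoot P.1), ∃ f : K[X], CoefIn O f ∧ f.natDegree < P.1.natDegree ∧
        AdjoinRoot.mk P.1 (f.comp (C (π ^ k) * X))
          = algebraMap K (AdjoinRoot P.1) π ^ M0 * b

/-- RINT: the roots of a fixed polynomial become integral after multiplication by a power of
`π`. -/
def T_RINT : Prop :=
  ∀ (K : Type u) [Field K] (O : Subring K) (π : K) (q E : ℕ), Good O π q E →
    ∀ f : K[X], f ≠ 0 → ∃ k1 : ℕ, ∀ k, k1 ≤ k → ∀ v : MI K, v.1 ∣ f →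
      algebraMap K (AdjoinRoot v.1) π ^ k * AdjoinRoot.root v.1 ∈ icl O (AdjoinRoot v.1)

/-- SMQ: `Q(β)` is small if `π ^ k β` is integral. -/
def T_SMQ : Prop :=
  ∀ (K : Type u) [Field K] (O : Subring K) (π : K) (q E : ℕ), Good O π q E →
    ∀ (k : ℕ) (v : MI K),
      algebraMap K (AdjoinRoot v.1) π ^ k * AdjoinRoot.root v.1 ∈ icl O (AdjoinRoot v.1) →
    ∀ (n M : ℕ), 1 ≤ n → n ≤ M → ∀ f : K[X], CoefIn O f →
      ∃ u ∈ Small (algebraMap K (AdjoinRoot v.1) π) n (icl O (AdjoinRoot v.1)),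
        (u : AdjoinRoot v.1) = AdjoinRoot.mk v.1 (QQ π M k f)

/-- SMX: at the roots of `Q = 1 + π ^ M f(π ^ k t)`, `M` large, the ratio of a fixed polynomial
and its leading monomial is small. -/
def T_SMX : Prop :=
  ∀ (K : Type u) [Field K] (O : Subring K) (π : K) (q E : ℕ), Good O π q E → IntClosed O →
    ∀ (g : K[X]), g ≠ 0 → ∀ (n m k : ℕ), 1 ≤ n → ∃ M1 : ℕ, ∀ M, M1 ≤ M →
      ∀ f : K[X], CoefIn O f → f.natDegree < m → ∀ v : MI K, v.1 ∣ QQ π M k f →
        ¬ v.1 ∣ X ∧ ∃ u ∈ Small (algebraMap K (AdjoinRoot v.1) π) n (icl O (AdjoinRoot v.1)),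
          (u : AdjoinRoot v.1) * AdjoinRoot.mk v.1 (lm g) = AdjoinRoot.mk v.1 g

/-! ### NETA -/

/-- The statement of NETA for the polynomial `P`. -/
def NetaP {K : Type u} [Field K] (O : Subring K) (π : K) (q n : ℕ) (P : MI K) : Prop :=
  ∀ m, ∀ x ∈ USub q (algebraMap K (AdjoinRoot P.1) π) n (icl O (AdjoinRoot P.1)) m,
    polyNorm P.1 m x ∈ USub q π n O m

/-- NB: the case of degree one. -/
def T_NB : Prop :=
  ∀ (K : Type u) [Field K] (O : Subring K) (π : K) (q E n : ℕ), Good O π q E → IntClosed O →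
    ∀ P : MI K, P.1.natDegree = 1 → NetaP O π q n P

/-- NSYM: the main step, for symbols of polynomials. -/
def T_NSYM : Prop :=
  ∀ (K : Type u) [Field K] [CharZero K] (O : Subring K) (π : K) (q E n : ℕ), Good O π q E →
    IntClosed O → 1 ≤ q → 2 * E + 1 ≤ n → ∀ P : MI K, 2 ≤ P.1.natDegree →
    (∀ v : MI K, v.1.natDegree < P.1.natDegree → NetaP O π q n v) →
    ∀ (m : ℕ) (f : Fin m → K[X]), (∀ i, f i ≠ 0 ∧ (f i).natDegree < P.1.natDegree) →
    ∀ k1 : ℕ, ∃ k2 : ℕ, k1 ≤ k2 ∧ ∀ k, k2 ≤ k → ∃ M1 : ℕ, ∀ M, M1 ≤ M → ∀ g : K[X], CoefIn O g →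
      g.natDegree < P.1.natDegree →
      ∀ (u : (AdjoinRoot P.1)ˣ) (y : Fin m → (AdjoinRoot P.1)ˣ),
        (u : AdjoinRoot P.1) = AdjoinRoot.mk P.1 (QQ π M k g) →
        (∀ i, (y i : AdjoinRoot P.1) = AdjoinRoot.mk P.1 (f i)) →
        polyNorm P.1 (m + 1) (cup u (sym y)) ∈ USub q π n O (m + 1)

/-- NETAP: small symbols have small Bass-Tate norms. -/
def T_NETAP : Prop :=
  ∀ (K : Type u) [Field K] [CharZero K] (O : Subring K) (π : K) (q E n : ℕ), Good O π q E →
    IntClosed O → 1 ≤ q → 2 * E + 1 ≤ n → ∀ P : MI K, NetaP O π q n P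

/-- NETAS: the norm of a simple extension with given generator. -/
def T_NETAS : Prop :=
  ∀ (K : Type u) [Field K] [CharZero K] (O : Subring K) (π : K) (q E n : ℕ), Good O π q E →
    IntClosed O → 1 ≤ q → 2 * E + 1 ≤ n →
    ∀ (L : Type u) [Field L] [Algebra K L] (x : L) (m : ℕ),
      ∀ y ∈ USub q (algebraMap K (IntermediateField.adjoin K {x}) π) n
          (icl O (IntermediateField.adjoin K {x})) m,
        simpleNorm K x m y ∈ USub q π n O m

/-- NETAT: the norm along a tower. -/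
def T_NETAT : Prop :=
  ∀ (E : Type u) [Field E] [CharZero E] (l : List E) (K : Type u) [Field K] [Algebra K E],
    Algebra.IsAlgebraic K E →
    ∀ (O : Subring K) (π : K) (q e n : ℕ), Good O π q e → IntClosed O → 1 ≤ q → 2 * e + 1 ≤ n →
    ∀ m, ∀ y ∈ USub q (algebraMap K E π) n (icl O E) m,
      towerNorm m l K y ∈ USub q π n O m

/-- NETA: norms of small symbols are small. -/
def T_NETA : Prop :=
  ∀ (K E : Type u) [Field K] [Field E] [CharZero K] [Algebra K E],
    ∀ (O : Subring K) (π : K) (q e n : ℕ), Good O π q e → IntClosed O → 1 ≤ q → 2 * e + 1 ≤ n →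
    ∀ m, ∀ y ∈ USub q (algebraMap K E π) n (icl O E) m,
      norm K E m y ∈ USub q π n O m

/-! ### Weak approximation -/

/-- APX: approximation for finitely many incomparable primes with one-dimensional localisations. -/
def T_APX : Prop :=
  ∀ (F : Type u) [Field F] (R : Subring F) (π : F) (ι : Type) [Fintype ι] (Q : ι → Ideal R)
    (S : ι → Subring F), (∀ i, (Q i).IsPrime) → (∀ i j, i ≠ j → ¬ Q i ≤ Q j) →
    (∀ i x, x ∈ S i ↔ LocMem R (Q i) x) →
    (∀ i, ∀ x : F, ∃ k : ℕ, π ^ k * x ∈ S i) → π ≠ 0 →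
    (∀ i, ∀ N : ℕ, ∃ M : ℕ, ∀ x : R, x ∈ Q i ^ M → ∃ c ∈ S i, (x : F) = π ^ N * c) →
    Approx π S

/-- APW: approximation of units: near `g` at `i`, near `1` elsewhere. -/
def T_APW : Prop :=
  ∀ (F : Type u) [Field F] (π : F) (q E : ℕ) (ι : Type) [Fintype ι] (R : ι → Subring F),
    (∀ i, Good (R i) π q E) → Approx π R → ∀ n : ℕ, 1 ≤ n → ∀ g : ι → Fˣ,
      ∃ g' : Fˣ, ∀ i, g' / g i ∈ Small π n (R i)

/-- MIX: mixed symbols are small. -/
def T_MIX : Prop :=
  ∀ (F : Type u) [Field F] (π : F) (q E : ℕ) (ι : Type) [Fintype ι] [Nonempty ι] (R : ι → Subring F),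
    (∀ i, Good (R i) π q E) → Approx π R → ∀ n : ℕ, 1 ≤ n → ∀ a b : Fˣ,
      (∀ i, a ∈ Small π n (R i) ∨ b ∈ Small π n (R i)) →
      ∀ (m : ℕ) (y : MilnorK F m), cup a (cup b y) ∈ USub q π n (⨅ i, R i) (m + 2)

/-- WA1: weak approximation for Milnor K-groups. -/
def T_WA1 : Prop :=
  ∀ (F : Type u) [Field F] (π : F) (q E : ℕ) (ι : Type) [Fintype ι] (R : ι → Subring F),
    (∀ i, Good (R i) π q E) → Approx π R → ∀ n : ℕ, 1 ≤ n → ∀ (m : ℕ),
      ∀ c : ι → MilnorK F (m + 1), ∃ c' : MilnorK F (m + 1), ∀ i,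
        c' - c i ∈ USub q π n (R i) (m + 1)

/-- PHI: the homomorphism `K_m(F) → K_m(F)/U` which looks only at the ring `R i`. -/
def T_PHI : Prop :=
  ∀ (F : Type u) [Field F] (π : F) (q E : ℕ) (ι : Type) [Fintype ι] (R : ι → Subring F),
    (∀ i, Good (R i) π q E) → Approx π R → ∀ n : ℕ, 1 ≤ n → ∀ (m : ℕ) (i : ι),
      ∃ φ : MilnorK F (m + 1) →+ MilnorK F (m + 1) ⧸ USub q π n (⨅ i, R i) (m + 1),
        (∀ x ∈ USub q π n (R i) (m + 1), φ x = 0) ∧
        ∀ g g' : Fin (m + 1) → Fˣ, (∀ k, g' k / g k ∈ Small π n (R i)) →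
          (∀ k j, j ≠ i → g' k ∈ Small π n (R j)) →
          φ (sym g) = QuotientAddGroup.mk (sym g')

/-- WA2: an element which is small at every `R i` is small for the intersection. -/
def T_WA2 : Prop :=
  ∀ (F : Type u) [Field F] (π : F) (q E : ℕ) (ι : Type) [Fintype ι] (R : ι → Subring F),
    (∀ i, Good (R i) π q E) → Approx π R → ∀ n : ℕ, 1 ≤ n → ∀ (m : ℕ) (c : MilnorK F m),
      (∀ i, c ∈ USub q π n (R i) m) → Nonempty ι → c ∈ USub q π n (⨅ i, R i) m

/-! ### Residues of small symbols -/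

/-- GRES: the Gersten residue of a small symbol is small (horizontal case).  `A → O → F`,
`κ` the residue field of `O`; small means `1 + π ^ n a` with `a` integral over `A`. -/
def T_GRES : Prop :=
  ∀ (A O F : Type u) [CommRing A] [CommRing O] [IsLocalRing O] [Field F] [Algebra O F]
    (f : A →+* O) (π : A) (q E n : ℕ),
    CharZero (IsLocalRing.ResidueField O) →
    Good (icl ((IsLocalRing.residue O).comp f).range (IsLocalRing.ResidueField O))
      (IsLocalRing.residue O (f π)) q E → 1 ≤ q → 2 * E + 1 ≤ n →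
    ∀ m, ∀ x ∈ USub q (algebraMap O F (f π)) n (icl ((algebraMap O F).comp f).range F) (m + 1),
      gerstenResidue O F m x ∈ USub q (IsLocalRing.residue O (f π)) n
        (icl ((IsLocalRing.residue O).comp f).range (IsLocalRing.ResidueField O)) m

/-- GRV: the Gersten residue of a small symbol is `q`-fold (vertical case: `π` is zero in the
residue field of `O`). -/
def T_GRV : Prop :=
  ∀ (A O F : Type u) [CommRing A] [CommRing O] [IsLocalRing O] [Field F] [Algebra O F]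
    (f : A →+* O) (π : A) (q n : ℕ), 1 ≤ n → f π ∈ IsLocalRing.maximalIdeal O →
    ∀ m, ∀ x ∈ USub q (algebraMap O F (f π)) n (icl ((algebraMap O F).comp f).range F) (m + 1),
      ∃ y, gerstenResidue O F m x = q • y

end Pool.Agent.H19.KN
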