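import Mathlib
import Pool.Agent.H62.MK.Defs2

/-!
# Project KEW: subgroups of small symbols (definitions)
-/

namespace Pool.Agent.H19.KN

open Pool.Agent.H62.MK Polynomial

universe u v w

/-- The units `1 + π ^ n * a` with `a` in the subring `S`. -/
def Small {F : Type u} [Field F] (π : F) (n : ℕ) (S : Subring F) : Set Fˣ :=
  {u | ∃ a ∈ S, (u : F) = 1 + π ^ n * a}

/-- Generators of the group of small symbols: `q`-fold elements and `{1 + π ^ n a} · y`. -/
noncomputable def UGen {F : Type u} [Field F] (q : ℕ) (π : F) (n : ℕ) (S : Subring F) :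
    ∀ m, Set (MilnorK F m)
  | 0 => {z | ∃ x, z = q • x}
  | (m + 1) => {z | (∃ x, z = q • x) ∨ ∃ u ∈ Small π n S, ∃ y : MilnorK F m, z = cup u y}

/-- The subgroup of small symbols in `K_m(F)`. -/
noncomputable def USub {F : Type u} [Field F] (q : ℕ) (π : F) (n : ℕ) (S : Subring F) (m : ℕ) :
    AddSubgroup (MilnorK F m) :=
  AddSubgroup.closure (UGen q π n S m)

/-- The standing hypotheses on a subring `O` of a field `F`: it contains `π ≠ 0`, which lies in the
Jacobson radical, and `q` is a unit of `O` times `π ^ E`. -/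
structure Good0 {F : Type u} [Field F] (O : Subring F) (π : F) (q E : ℕ) : Prop where
  pi_mem : π ∈ O
  pi_ne : π ≠ 0
  jac : ∀ a ∈ O, ∃ b ∈ O, (1 + π * a) * b = 1
  qeq : ∃ ε ∈ O, ∃ ε' ∈ O, ε * ε' = 1 ∧ (q : F) = ε * π ^ E

/-- `Good0` and `F = O[1/π]`. -/
structure Good {F : Type u} [Field F] (O : Subring F) (π : F) (q E : ℕ) : Prop
    extends Good0 O π q E where
  frac : ∀ x : F, ∃ k : ℕ, π ^ k * x ∈ O

/-- The integral closure of the subring `O` of `F` in a field extension `E`, as a subring. -/
noncomputable def icl {F : Type u} [Field F] (O : Subring F) (E : Type v) [Field E] [Algebra F E] :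
    Subring E :=
  (integralClosure O E).toSubring

/-- Integrally closed subring. -/
def IntClosed {F : Type u} [Field F] (O : Subring F) : Prop := ∀ x : F, IsIntegral O x → x ∈ O

/-- Monic irreducible polynomials. -/
abbrev MI (K : Type u) [Field K] := {P : K[X] // P.Monic ∧ Irreducible P}

instance {K : Type u} [Field K] (P : MI K) : Fact (Irreducible P.1) := ⟨P.2.2⟩

/-- The unit of `K(t)` attached to a nonzero polynomial (`1` for the zero polynomial). -/
noncomputable def pu {K : Type u} [Field K] (f : K[X]) : (RatFunc K)ˣ :=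
  open Classical in
  if h : algebraMap K[X] (RatFunc K) f = 0 then 1 else Units.mk0 _ h

/-- The leading monomial `c t ^ k` of a polynomial. -/
noncomputable def lm {K : Type u} [Field K] (f : K[X]) : K[X] :=
  C f.leadingCoeff * X ^ f.natDegree

/-- Coefficients in the subring. -/
def CoefIn {K : Type u} [Field K] (O : Subring K) (f : K[X]) : Prop := ∀ i, f.coeff i ∈ O

/-- The polynomial `1 + π ^ M * q(π ^ k t)`. -/
noncomputable def QQ {K : Type u} [Field K] (π : K) (M k : ℕ) (q : K[X]) : K[X] :=
  1 + C (π ^ M) * q.comp (C (π ^ k) * X)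

/-- Approximation property of a finite family of subrings. -/
def Approx {F : Type u} [Field F] {ι : Type v} (π : F) (R : ι → Subring F) : Prop :=
  ∀ (f : ι → F) (N : ℕ), ∃ g : F, ∀ i, ∃ c ∈ R i, g = f i + π ^ N * c

/-- Localisation of a subring at (the complement of) an ideal, as a set: fractions `a / s`,
`s ∉ Q`. -/
def LocMem {F : Type u} [Field F] (R : Subring F) (Q : Ideal R) (x : F) : Prop :=
  ∃ s : R, s ∉ Q ∧ (s : F) * x ∈ R

end Pool.Agent.H19.KN
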