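import Pool.Agent.H19.KN.Targets
import Pool.Agent.H62.MK.Tame
import Pool.Agent.H62.MK.TargetsA

namespace Pool.Agent.H19.KN

open Pool.Agent.H62.MK Polynomial Function

universe u

section
variable {K : Type u} [Field K]

theorem nb_pu (hF : T_FPO.{u}) (f : K[X]) (hf : f ≠ 0) :
    ((pu f : (RatFunc K)ˣ) : RatFunc K) = algebraMap K[X] (RatFunc K) f := by
  have : Irreducible (X : K[X]) := irreducible_X
  exact (hF K ⟨X, monic_X, irreducible_X⟩ f hf).1

theorem nb_pu_mul (hF : T_FPO.{u}) (f g : K[X]) (hf : f ≠ 0) (hg : g ≠ 0) :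
    pu (f * g) = pu f * pu g := by
  apply Units.ext
  rw [Units.val_mul, nb_pu hF _ (mul_ne_zero hf hg), nb_pu hF _ hf, nb_pu hF _ hg, map_mul]

theorem nb_inv (f : K[X]) :
    invSubst K (algebraMap K[X] (RatFunc K) f) = aeval ((RatFunc.X : RatFunc K)⁻¹) f := by
  unfold invSubst
  exact IsFractionRing.lift_algebraMap _ _

theorem nb_inv_X : invSubst K (algebraMap K[X] (RatFunc K) X)
    = (algebraMap K[X] (RatFunc K) X)⁻¹ := by
  rw [nb_inv, aeval_X]
  rfl

theorem nb_inv_C (c : K) : invSubst K (algebraMap K[X] (RatFunc K) (C c))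
    = algebraMap K[X] (RatFunc K) (C c) := by
  rw [nb_inv, aeval_C]
  rfl

theorem nb_zero_ord (hF : T_FPO.{u}) : (zeroPlace K).ord (pu (X : K[X])) = 1 := by
  have h := (hF K ⟨X, monic_X, irreducible_X⟩ X X_ne_zero).2.2
  exact h

theorem nb_not_dvd_C (v : MI K) (c : K) (hc : c ≠ 0) : ¬ v.1 ∣ C c := by
  intro h
  exact v.2.2.not_isUnit (isUnit_of_dvd_unit h (isUnit_C.2 (isUnit_iff_ne_zero.2 hc)))

theorem nb_zero_ord_C (hF : T_FPO.{u}) (c : K) (hc : c ≠ 0) :
    (zeroPlace K).ord (pu (C c : K[X])) = 0 :=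
  ((hF K ⟨X, monic_X, irreducible_X⟩ (C c) (C_ne_zero.2 hc)).2.1
    (nb_not_dvd_C ⟨X, monic_X, irreducible_X⟩ c hc)).1

theorem nb_zero_ures_C (hF : T_FPO.{u}) (c : Kˣ) :
    (zeroPlace K).ures (pu (C (c : K) : K[X])) = c := by
  rw [DV.ures_of_ord_eq_zero _ _ (nb_zero_ord_C hF (c : K) c.ne_zero)]
  apply Units.ext
  have h1 : ((pu (C (c : K) : K[X]) : (RatFunc K)ˣ) : RatFunc K)
      = algebraMap K[X] (RatFunc K) (C (c : K)) := nb_pu hF _ (C_ne_zero.2 c.ne_zero)
  have h2 : ∀ (t : RatFunc K) (ht : t ∈ (zeroPlace K).ring),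
      t = algebraMap K[X] (RatFunc K) (C (c : K)) → (zeroPlace K).res ⟨t, ht⟩ = c := by
    intro t ht h
    subst h
    have := placeDV_res (K := RatFunc K) (polyPrime (X : K[X]) irreducible_X)
      (Polynomial.evalRingHom (0 : K)) (fun c => ⟨C c, by simp⟩)
      (by
        ext r
        rw [RingHom.mem_ker]
        show eval 0 r = 0 ↔ r ∈ Ideal.span {X}
        rw [Ideal.mem_span_singleton, X_dvd_iff, coeff_zero_eq_eval_zero]) (C (c : K)) ht
    refine Eq.trans this ?_
    simp
  exact h2 _ _ h1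

theorem nb_map_map {L : Type u} [Field L] (f : K →+* L) (g : L →+* K)
    (h : ∀ x, f (g x) = x) (m : ℕ) (x : MilnorK L m) :
    Pool.Agent.H62.MK.map f m (Pool.Agent.H62.MK.map g m x) = x := by
  have : (Pool.Agent.H62.MK.map f m).comp (Pool.Agent.H62.MK.map g m)
      = AddMonoidHom.id (MilnorK L m) := by
    refine hom_ext fun a => ?_
    rw [AddMonoidHom.comp_apply, map_sym, map_sym, AddMonoidHom.id_apply]
    congr 1
    funext i
    apply Units.ext
    exact h _
  exact DFunLike.congr_fun this x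

end

/-- The norm for a polynomial of degree one. -/
theorem nb_norm (hPN : T_PN.{u}) (hF : T_FPO.{u}) (hI : T_INF.{u}) {K : Type u} [Field K]
    (P : MI K) (hP : P.1.natDegree = 1) (m : ℕ) (y : MilnorK K m) :
    polyNorm P.1 m (Pool.Agent.H62.MK.map (algebraMap K (AdjoinRoot P.1)) m y) = y := by
  have hP0 : P.1 ≠ 0 := P.2.2.ne_zero
  have key : (polyNorm P.1 m).comp (Pool.Agent.H62.MK.map (algebraMap K (AdjoinRoot P.1)) m)
      = AddMonoidHom.id (MilnorK K m) := by
    refine hom_ext fun g => ?_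
    rw [AddMonoidHom.comp_apply, AddMonoidHom.id_apply]
    set cst : Fin m → (RatFunc K)ˣ := fun i => pu (C (g i : K)) with hcst
    have hordC : ∀ (v : MI K) (i : Fin m), (finPlace v.1).ord (cst i) = 0 ∧
        (((finPlace v.1).ures (cst i) : (AdjoinRoot v.1)ˣ) : AdjoinRoot v.1)
          = AdjoinRoot.mk v.1 (C (g i : K)) := fun v i =>
      (hF K v (C (g i : K)) (C_ne_zero.2 (g i).ne_zero)).2.1
        (nb_not_dvd_C v _ (g i).ne_zero)
    set a : MilnorK (RatFunc K) (m + 1) := cup (pu P.1) (sym cst) with ha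
    have honly : OnlyAt P.1 m a := by
      intro Q hQ hQm hQP
      have hnd : ¬ Q ∣ P.1 := by
        intro h
        exact hQP (eq_of_monic_of_associated hQm P.2.1
          ((hQ.out.associated_of_dvd P.2.2) h))
      have h1 := (hF K ⟨Q, hQm, hQ.out⟩ P.1 hP0).2.1 hnd
      rw [ha, tame_cup_sym_units _ _ _ _ fun i => (hordC ⟨Q, hQm, hQ.out⟩ i).1]
      rw [h1.1, zero_smul]
    have htame : tame (finPlace P.1) m a
        = Pool.Agent.H62.MK.map (algebraMap K (AdjoinRoot P.1)) m (sym g) := by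
      rw [ha, tame_cup_sym_units _ _ _ _ fun i => (hordC P i).1, (hF K P P.1 hP0).2.2, one_smul,
        map_sym]
      congr 1
      funext i
      apply Units.ext
      rw [(hordC P i).2]
      rfl
    have hinf : tameInf K m a = -sym g := by
      have hlm : lm P.1 = X := by
        rw [lm, hP, P.2.1.leadingCoeff, C_1, one_mul, pow_one]
      have e1 : pu P.1 = (pu P.1 / pu (lm P.1)) * pu (X : K[X]) := by
        rw [hlm, div_mul_cancel]
      rw [ha, e1, cup_mul, map_add]
      have e2 : tameInf K m (cup (pu P.1 / pu (lm P.1)) (sym cst)) = 0 := by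
        rw [cup_sym]
        exact hI K m _ 0 P.1 hP0 (by simp)
      rw [e2, zero_add]
      unfold tameInf
      rw [AddMonoidHom.comp_apply, map_cup, map_sym]
      have e3 : Units.map (invSubst K).toMonoidHom (pu (X : K[X])) = (pu (X : K[X]))⁻¹ := by
        apply Units.ext
        show invSubst K ((pu (X : K[X]) : (RatFunc K)ˣ) : RatFunc K) = _
        rw [nb_pu hF X X_ne_zero, nb_inv_X, Units.val_inv_eq_inv_val, nb_pu hF X X_ne_zero]
      have e4 : (fun i => Units.map (invSubst K).toMonoidHom (cst i)) = cst := by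
        funext i
        apply Units.ext
        show invSubst K ((pu (C (g i : K) : K[X]) : (RatFunc K)ˣ) : RatFunc K) = _
        rw [nb_pu hF _ (C_ne_zero.2 (g i).ne_zero), nb_inv_C]
      rw [e3, e4, tame_cup_sym_units _ _ _ _ fun i => nb_zero_ord_C hF _ (g i).ne_zero,
        DV.ord_inv, nb_zero_ord hF, neg_smul, one_smul]
      congr 2
      funext i
      exact nb_zero_ures_C hF (g i)
    have h := hPN K P.1 P.2.1 m a honly
    rw [htame, hinf, neg_neg] at h
    exact h
  exact DFunLike.congr_fun key y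

theorem pf_NB (hPN : T_PN.{u}) (hF : T_FPO.{u}) (hI : T_INF.{u}) (hU : T_UMAP.{u})
    (hGE : T_GOODE.{u}) : T_NB.{u} := by
  intro K _ O π q E n hG hIC P hP m x hx
  have hP0 : P.1 ≠ 0 := P.2.2.ne_zero
  have hfin : FiniteDimensional K (AdjoinRoot P.1) := (AdjoinRoot.powerBasis hP0).finite
  have halg : Algebra.IsAlgebraic K (AdjoinRoot P.1) := Algebra.IsAlgebraic.of_finite K _
  obtain ⟨-, -, -, h4, -⟩ := hGE K O π q E hG (AdjoinRoot P.1) inferInstance
  have hsurj : Surjective (algebraMap K (AdjoinRoot P.1)) := by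
    intro z
    obtain ⟨f, rfl⟩ := AdjoinRoot.mk_surjective z
    have h1 : (f %ₘ P.1).natDegree < 1 := by
      rw [← hP]
      exact natDegree_modByMonic_lt f P.2.1 (by
        intro h
        rw [h] at hP
        simp at hP)
    refine ⟨(f %ₘ P.1).coeff 0, ?_⟩
    have h2 : f %ₘ P.1 = C ((f %ₘ P.1).coeff 0) := eq_C_of_natDegree_eq_zero (by omega)
    have h3 : AdjoinRoot.mk P.1 f = AdjoinRoot.mk P.1 (f %ₘ P.1) := by
      conv_lhs => rw [← modByMonic_add_div f P.1]
      rw [map_add, map_mul, AdjoinRoot.mk_self, zero_mul, add_zero]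
    rw [h3, h2]
    simp [AdjoinRoot.mk_C, AdjoinRoot.algebraMap_eq]
  have hbij : Bijective (algebraMap K (AdjoinRoot P.1)) :=
    ⟨(algebraMap K (AdjoinRoot P.1)).injective, hsurj⟩
  set e := RingEquiv.ofBijective _ hbij with he
  have hes : ∀ z, algebraMap K (AdjoinRoot P.1) (e.symm z) = z := fun z => e.apply_symm_apply z
  have hx2 : x = Pool.Agent.H62.MK.map (algebraMap K (AdjoinRoot P.1)) m
      (Pool.Agent.H62.MK.map e.symm.toRingHom m x) :=
    (nb_map_map (algebraMap K (AdjoinRoot P.1)) e.symm.toRingHom hes m x).symm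
  rw [hx2, nb_norm hPN hF hI P hP m]
  have h5 := hU (AdjoinRoot P.1) K e.symm.toRingHom (icl O (AdjoinRoot P.1)) O
    (algebraMap K (AdjoinRoot P.1) π) q n (by
      intro a ha
      apply h4 hIC
      show algebraMap K (AdjoinRoot P.1) (e.symm a) ∈ _
      rw [hes]; exact ha) m x hx
  have h6 : e.symm.toRingHom (algebraMap K (AdjoinRoot P.1) π) = π := e.symm_apply_apply π
  rw [h6] at h5
  exact h5

end Pool.Agent.H19.KN
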