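import Pool.Agent.H19.KN.Targets
import Pool.Agent.H62.MK.TargetsA

namespace Pool.Agent.H19.KN

open Pool.Agent.H62.MK Polynomial Function

universe u

theorem pf_RECIP (hR : T_REC.{u}) (hF : T_FINP.{u}) : T_RECIP.{u} := by
  classical
  intro K _ m x
  refine ⟨(hF K m x).toFinset, fun v hv => ?_, ?_⟩
  · by_contra h
    exact hv ((hF K m x).mem_toFinset.2 h)
  · have h1 := hR K m x
    have h2 : (∑ᶠ P : MonicIrr K, polyNorm P.1 m (tame (finPlace P.1) m x))
        = ∑ v ∈ (hF K m x).toFinset, polyNorm v.1 m (tame (finPlace v.1) m x) := by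
      refine finsum_eq_sum_of_support_subset _ ?_
      intro v hv
      rw [Set.Finite.coe_toFinset]
      intro h
      apply hv
      show polyNorm v.1 m (tame (finPlace v.1) m x) = 0
      rw [h, map_zero]
    rw [h2] at h1
    exact eq_neg_of_add_eq_zero_left h1

end Pool.Agent.H19.KN
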