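import Pool.Agent.H19.KN.All0
import Pool.Agent.H19.KN.NB
import Pool.Agent.H19.KN.RECIP
import Pool.Agent.H23.KN.GRES
import Pool.Agent.H23.KN.NETAP
import Pool.Agent.H24.KN.NETA
import Pool.Agent.H46.KN.NETAS
import Pool.Agent.H46.KN.NETAT
import Pool.Agent.H64.KN.NSYM
import Pool.Agent.H14.KM.TA

/-!
# Project KEW, block NETA: all targets of `H19/KN/Targets.lean` are closed
-/

namespace Pool.Agent.H19.KN

open Pool.Agent.H14.KM (pf_REC pf_FINP pf_PN)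

universe u

theorem ok_RECIP : T_RECIP.{u} := pf_RECIP pf_REC pf_FINP
theorem ok_NB : T_NB.{u} := pf_NB pf_PN ok_FPO ok_INF ok_UMAP ok_GOODE
theorem ok_NSYM : T_NSYM.{u} :=
  Pool.Agent.H64.KN.pf_NSYM ok_RECIP ok_TELE ok_TSL ok_TZP ok_FPO ok_INF ok_RINT ok_SMQ ok_SMX
theorem ok_NETAP : T_NETAP.{u} :=
  Pool.Agent.H23.KN.pf_NETAP ok_NSYM ok_NB ok_DISC ok_ROOT ok_GOODE ok_UMEM
theorem ok_NETAS : T_NETAS.{u} := Pool.Agent.H46.KN.pf_NETAS ok_NETAP ok_UMAP ok_GOODE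
theorem ok_NETAT : T_NETAT.{u} := Pool.Agent.H46.KN.pf_NETAT ok_NETAS ok_UMAP ok_GOODE
theorem ok_NETA : T_NETA.{u} := Pool.Agent.H24.KN.pf_NETA ok_NETAT
theorem ok_GRES : T_GRES.{u} := Pool.Agent.H23.KN.pf_GRES ok_NETA ok_UMEM ok_GOODE

end Pool.Agent.H19.KN
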