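import Pool.Agent.H19.KN.Targets

namespace Pool.Agent.H19.KN

open Pool.Agent.H62.MK Polynomial Function

universe u

section
variable {K : Type u} [Field K] (O : Subring K) (π : K) (q E : ℕ)

theorem disc_isFractionRing (hG : Good O π q E) : IsFractionRing O K where
  map_units := by
    intro y
    exact isUnit_iff_ne_zero.2 (by
      have h := nonZeroDivisors.ne_zero y.2
      intro h2
      exact h (Subtype.ext h2))
  surj := by
    intro x
    obtain ⟨k, hk⟩ := hG.frac x
    refine ⟨(⟨π ^ k * x, hk⟩, ⟨⟨π ^ k, O.pow_mem hG.pi_mem k⟩, ?_⟩), ?_⟩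
    · rw [mem_nonZeroDivisors_iff_ne_zero]
      intro h
      exact pow_ne_zero k hG.pi_ne (congrArg Subtype.val h)
    · show x * (π ^ k) = π ^ k * x
      ring
  exists_of_eq := by
    intro x y h
    exact ⟨1, by rw [Subtype.ext (h : (x : K) = y)]⟩

theorem disc_isIntegrallyClosed (hG : Good O π q E) (hI : IntClosed O) :
    IsIntegrallyClosed O := by
  have := disc_isFractionRing O π q E hG
  rw [isIntegrallyClosed_iff K]
  intro x hx
  exact ⟨⟨x, hI x hx⟩, rfl⟩

end

theorem pf_DISC (hGE : T_GOODE.{u}) : T_DISC.{u} := by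
  intro K _ _ O π q E hG hI P k1
  have hF := disc_isFractionRing O π q E hG
  have hIC := disc_isIntegrallyClosed O π q E hG hI
  have hirr : Fact (Irreducible P.1) := ⟨P.2.2⟩
  have hP0 : P.1 ≠ 0 := P.2.2.ne_zero
  have hfin : FiniteDimensional K (AdjoinRoot P.1) := (AdjoinRoot.powerBasis hP0).finite
  have halg : Algebra.IsAlgebraic K (AdjoinRoot P.1) := Algebra.IsAlgebraic.of_finite K _
  obtain ⟨hGL, -, hOL, -, -⟩ := hGE K O π q E hG (AdjoinRoot P.1) inferInstance
  set a : AdjoinRoot P.1 := algebraMap K (AdjoinRoot P.1) π with ha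
  obtain ⟨k0, hk0⟩ := hGL.frac (AdjoinRoot.root P.1)
  have hmem : ∀ k, k0 ≤ k → a ^ k * AdjoinRoot.root P.1 ∈ icl O (AdjoinRoot P.1) := by
    intro k hk
    obtain ⟨j, rfl⟩ := Nat.exists_eq_add_of_le hk
    have : a ^ (k0 + j) * AdjoinRoot.root P.1 = a ^ j * (a ^ k0 * AdjoinRoot.root P.1) := by
      rw [pow_add]; ring
    rw [this]
    exact (icl O (AdjoinRoot P.1)).mul_mem ((icl O (AdjoinRoot P.1)).pow_mem hGL.pi_mem j) hk0
  set k := max k0 k1 with hk
  set θ : AdjoinRoot P.1 := a ^ k * AdjoinRoot.root P.1 with hθ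
  have hθO : IsIntegral O θ := hmem k (le_max_left _ _)
  have hθK : IsIntegral K θ := IsIntegral.of_finite K θ
  have ha0 : a ≠ 0 := by
    rw [ha]; exact (_root_.map_ne_zero _).2 hG.pi_ne
  have hrt : AdjoinRoot.root P.1 ∈ Algebra.adjoin K ({θ} : Set (AdjoinRoot P.1)) := by
    have : AdjoinRoot.root P.1 = (π ^ k)⁻¹ • θ := by
      rw [Algebra.smul_def, hθ, map_inv₀, map_pow, ← ha]
      field_simp
    rw [this]
    exact Subalgebra.smul_mem _ (Algebra.self_mem_adjoin_singleton K θ) _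
  have htop : Algebra.adjoin K ({θ} : Set (AdjoinRoot P.1)) = ⊤ := by
    rw [eq_top_iff, ← AdjoinRoot.adjoinRoot_eq_top]
    exact Algebra.adjoin_le (by simpa using hrt)
  set B := PowerBasis.ofAdjoinEqTop hθK htop with hB
  have hBgen : B.gen = θ := PowerBasis.ofAdjoinEqTop_gen hθK htop
  have hsep : Algebra.IsSeparable K (AdjoinRoot P.1) := inferInstance
  have hd0 : Algebra.discr K B.basis ≠ 0 := Algebra.discr_not_zero_of_basis K B.basis
  set d := Algebra.discr K B.basis with hd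
  obtain ⟨M0, hM0⟩ := hG.frac d⁻¹
  refine ⟨k, le_max_right _ _, M0, ?_⟩
  intro b hb
  have h1 : d • b ∈ Algebra.adjoin O ({B.gen} : Set (AdjoinRoot P.1)) :=
    Algebra.discr_mul_isIntegral_mem_adjoin K (by rw [hBgen]; exact hθO) hb
  rw [hBgen] at h1
  have h2 : a ^ M0 * b ∈ Algebra.adjoin O ({θ} : Set (AdjoinRoot P.1)) := by
    have : a ^ M0 * b = (⟨π ^ M0 * d⁻¹, hM0⟩ : O) • (d • b) := by
      have e0 : (π ^ M0 * d⁻¹) * d = π ^ M0 := by field_simp
      rw [Algebra.smul_def, Algebra.smul_def]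
      show a ^ M0 * b = algebraMap K (AdjoinRoot P.1) (π ^ M0 * d⁻¹)
        * (algebraMap K (AdjoinRoot P.1) d * b)
      rw [← mul_assoc, ← map_mul, e0, map_pow]
    rw [this]
    exact Subalgebra.smul_mem _ h1 _
  rw [Algebra.adjoin_singleton_eq_range_aeval] at h2
  obtain ⟨f0, hf0⟩ := h2
  have hmon : (minpoly O θ).Monic := minpoly.monic hθO
  have hmin : minpoly K θ = (minpoly O θ).map (algebraMap O K) :=
    minpoly.isIntegrallyClosed_eq_field_fractions' K hθO
  have hdeg : (minpoly O θ).natDegree ≤ P.1.natDegree := by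
    have e1 : (minpoly O θ).natDegree = (minpoly K θ).natDegree := by
      rw [hmin, hmon.natDegree_map]
    rw [e1]
    have e2 : (minpoly K θ).natDegree ≤ Module.finrank K (AdjoinRoot P.1) :=
      minpoly.natDegree_le θ
    have e3 : Module.finrank K (AdjoinRoot P.1) = P.1.natDegree := by
      rw [(AdjoinRoot.powerBasis hP0).finrank, AdjoinRoot.powerBasis_dim]
    omega
  have hne1 : minpoly O θ ≠ 1 := minpoly.ne_one O θ
  refine ⟨(f0 %ₘ minpoly O θ).map (algebraMap O K), ?_, ?_, ?_⟩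
  · intro i
    rw [coeff_map]
    exact ((f0 %ₘ minpoly O θ).coeff i).2
  · refine lt_of_le_of_lt natDegree_map_le ?_
    exact lt_of_lt_of_le (natDegree_modByMonic_lt f0 hmon hne1) hdeg
  · rw [← AdjoinRoot.aeval_eq, aeval_comp]
    have e1 : aeval (AdjoinRoot.root P.1) (C (π ^ k) * X) = θ := by
      rw [map_mul, aeval_C, aeval_X, map_pow]
    rw [e1, aeval_map_algebraMap]
    have e2 : aeval θ f0 = aeval θ (f0 %ₘ minpoly O θ) := by
      conv_lhs => rw [← modByMonic_add_div f0 (minpoly O θ)]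
      rw [map_add, map_mul, minpoly.aeval, zero_mul, add_zero]
    rw [← e2]
    exact hf0

end Pool.Agent.H19.KN
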