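import Pool.Agent.H19.KN.Targets

namespace Pool.Agent.H19.KN

open Pool.Agent.H62.MK Polynomial Function

universe u

theorem smx_frac {K : Type u} [Field K] (O : Subring K) (π : K) (q E : ℕ) (hG : Good O π q E)
    (x : ℕ → K) (d : ℕ) : ∃ k : ℕ, ∀ i, i < d → π ^ k * x i ∈ O := by
  induction d with
  | zero => exact ⟨0, fun i hi => absurd hi (Nat.not_lt_zero i)⟩
  | succ d ih =>
    obtain ⟨k, hk⟩ := ih
    obtain ⟨l, hl⟩ := hG.frac (x d)
    refine ⟨k + l, fun i hi => ?_⟩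
    rcases Nat.lt_succ_iff_lt_or_eq.1 hi with h | h
    · have : π ^ (k + l) * x i = π ^ l * (π ^ k * x i) := by rw [pow_add]; ring
      rw [this]
      exact O.mul_mem (O.pow_mem hG.pi_mem l) (hk i h)
    · subst h
      have : π ^ (k + l) * x i = π ^ k * (π ^ l * x i) := by rw [pow_add]; ring
      rw [this]
      exact O.mul_mem (O.pow_mem hG.pi_mem k) hl

/-- the equation of `w'` gives integrality -/
theorem smx_integral {K L : Type u} [Field K] [Field L] [Algebra K L] (O : Subring K) (m : ℕ)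
    (e : ℕ → K) (he : ∀ i, e i ∈ O) (c c' : K) (hc' : c' ∈ O) (hcc : c * c' = 1)
    (w : L)
    (h : algebraMap K L c * w ^ m + ∑ i ∈ Finset.Ico 1 m, algebraMap K L (e i) * w ^ (m - i) = 0) :
    IsIntegral O w := by
  set p : O[X] := ∑ i ∈ Finset.Ico 1 m, C (⟨c', hc'⟩ * ⟨e i, he i⟩ : O) * X ^ (m - i) with hp
  have hdeg : p.degree < m := by
    rw [← mem_degreeLT]
    refine Submodule.sum_mem _ fun i hi => ?_
    rw [mem_degreeLT]
    refine lt_of_le_of_lt (degree_C_mul_X_pow_le _ _) ?_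
    have h1 := (Finset.mem_Ico.1 hi).1
    have h2 := (Finset.mem_Ico.1 hi).2
    exact_mod_cast (by omega : m - i < m)
  refine ⟨X ^ m + p, monic_X_pow_add hdeg, ?_⟩
  rw [eval₂_add, eval₂_pow, eval₂_X, hp, eval₂_finsetSum]
  have h1 : ∀ i ∈ Finset.Ico 1 m,
      eval₂ (algebraMap O L) w (C (⟨c', hc'⟩ * ⟨e i, he i⟩ : O) * X ^ (m - i))
        = algebraMap K L c' * (algebraMap K L (e i) * w ^ (m - i)) := by
    intro i _
    rw [eval₂_mul, eval₂_C, eval₂_pow, eval₂_X, ← mul_assoc, ← map_mul]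
    rfl
  rw [Finset.sum_congr rfl h1, ← Finset.mul_sum]
  have h2 : (∑ i ∈ Finset.Ico 1 m, algebraMap K L (e i) * w ^ (m - i))
      = -(algebraMap K L c * w ^ m) := by
    exact (eq_neg_of_add_eq_zero_right h)
  rw [h2]
  have h3 : algebraMap K L c' * algebraMap K L c = 1 := by
    rw [← map_mul, mul_comm, hcc, map_one]
  have : w ^ m + algebraMap K L c' * -(algebraMap K L c * w ^ m)
      = w ^ m * (1 - algebraMap K L c' * algebraMap K L c) := by ring
  rw [this, h3, sub_self, mul_zero]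

theorem smx_eq {L : Type u} [Field L] (a w zi : L) (m M' N : ℕ) (c : ℕ → L)
    (h2 : zi = a ^ M' * w)
    (h3 : zi ^ m + a ^ (M' * m + N) * ∑ i ∈ Finset.range m, c i * zi ^ (m - i) = 0) :
    a ^ (M' * m) * (w ^ m + a ^ N * ∑ i ∈ Finset.range m,
      c i * (a ^ (M' * (m - i)) * w ^ (m - i))) = 0 := by
  subst h2
  rw [← h3, mul_add, pow_add, mul_pow, ← pow_mul, mul_assoc]
  congr 3
  refine Finset.sum_congr rfl fun i _ => ?_
  rw [mul_pow, ← pow_mul]

theorem pf_SMX (hGE : T_GOODE.{u}) (hGRP : T_GRP.{u}) : T_SMX.{u} := by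
  intro K _ O π q E hG hI g hg n m k hn
  set d := g.natDegree with hd
  have hlc : g.leadingCoeff ≠ 0 := leadingCoeff_ne_zero.2 hg
  obtain ⟨κ, hκ⟩ := smx_frac O π q E hG (fun i => g.coeff i / g.leadingCoeff) d
  refine ⟨m * (κ + n), ?_⟩
  intro M hM f hf hfm v hv
  have hirr : Fact (Irreducible v.1) := ⟨v.2.2⟩
  have hv0 : v.1 ≠ 0 := v.2.2.ne_zero
  have hfin : FiniteDimensional K (AdjoinRoot v.1) := (AdjoinRoot.powerBasis hv0).finite
  have halg : Algebra.IsAlgebraic K (AdjoinRoot v.1) := Algebra.IsAlgebraic.of_finite K _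
  obtain ⟨hGL, -, hOL, -, -⟩ := hGE K O π q E hG (AdjoinRoot v.1) inferInstance
  set a : AdjoinRoot v.1 := algebraMap K (AdjoinRoot v.1) π with ha
  set ξ : AdjoinRoot v.1 := AdjoinRoot.root v.1 with hξ
  set B := icl O (AdjoinRoot v.1) with hB
  have ha0 : a ≠ 0 := hGL.pi_ne
  have hm1 : 1 ≤ m := by omega
  set M' := κ + n with hM'
  obtain ⟨N, hN⟩ : ∃ N, M = M' * m + N := Nat.exists_eq_add_of_le (by
    rw [mul_comm]; exact hM)
  have hMpos : 1 ≤ M := by
    have : 1 ≤ M' * m := Nat.one_le_iff_ne_zero.2 (Nat.mul_ne_zero (by omega) (by omega))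
    omega
  -- the value of Q at the root
  have hQ0 : AdjoinRoot.mk v.1 (QQ π M k f) = 0 := AdjoinRoot.mk_eq_zero.2 hv
  have hQ : AdjoinRoot.mk v.1 (QQ π M k f)
      = 1 + a ^ M * ∑ i ∈ Finset.range m, algebraMap K _ (f.coeff i) * (a ^ k * ξ) ^ i := by
    rw [QQ, ← AdjoinRoot.aeval_eq, map_add, map_one, map_mul, aeval_C, aeval_comp, map_mul, aeval_C,
      aeval_X, map_pow, map_pow, ← ha, ← hξ, aeval_eq_sum_range' hfm]
    congr 2
    refine Finset.sum_congr rfl fun i _ => ?_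
    rw [Algebra.smul_def]
  rw [hQ] at hQ0
  have hone : ∀ j, 1 ≤ j → 1 + a ^ j * algebraMap K (AdjoinRoot v.1) (f.coeff 0) ≠ 0 := by
    intro j hj
    have h1 := (hGRP K O π q E hG.toGood0 j hj).2.2.2.2.1 (f.coeff 0) (hf 0)
    intro h2
    apply h1
    apply (algebraMap K (AdjoinRoot v.1)).injective
    rw [map_add, map_one, map_mul, map_pow, map_zero]
    exact h2
  have hξ0 : ξ ≠ 0 := by
    intro h0
    rw [h0, mul_zero] at hQ0
    have : ∑ i ∈ Finset.range m, algebraMap K (AdjoinRoot v.1) (f.coeff i)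
        * (0 : AdjoinRoot v.1) ^ i = algebraMap K _ (f.coeff 0) := by
      rw [Finset.sum_eq_single 0]
      · simp
      · intro i _ hi; simp [hi]
      · intro h; exact absurd (Finset.mem_range.2 hm1) h
    rw [this] at hQ0
    exact hone M hMpos hQ0
  refine ⟨?_, ?_⟩
  · intro hX
    have : AdjoinRoot.mk v.1 X = 0 := AdjoinRoot.mk_eq_zero.2 hX
    rw [AdjoinRoot.mk_X] at this
    exact hξ0 this
  set z := a ^ k * ξ with hz
  have hz0 : z ≠ 0 := mul_ne_zero (pow_ne_zero _ ha0) hξ0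
  set w := z⁻¹ * (a ^ M')⁻¹ with hw
  -- integrality of w
  have hwB : w ∈ B := by
    obtain ⟨c', hc', hcc⟩ := hG.jac (π ^ (N + M' * m - 1) * f.coeff 0)
      (O.mul_mem (O.pow_mem hG.pi_mem _) (hf 0))
    have hpos : 1 ≤ N + M' * m := by
      have : 1 ≤ M' * m := Nat.one_le_iff_ne_zero.2 (Nat.mul_ne_zero (by omega) (by omega))
      omega
    have hce : π * (π ^ (N + M' * m - 1) * f.coeff 0) = π ^ (N + M' * m) * f.coeff 0 := by
      rw [← mul_assoc, ← pow_succ']
      congr 2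
      omega
    rw [hce] at hcc
    refine smx_integral O m (fun i => π ^ N * (f.coeff i * π ^ (M' * (m - i)))) ?_
      (1 + π ^ (N + M' * m) * f.coeff 0) c' hc' hcc w ?_
    · intro i
      exact O.mul_mem (O.pow_mem hG.pi_mem _) (O.mul_mem (hf i) (O.pow_mem hG.pi_mem _))
    · -- multiply the equation
      have h1 : ∀ i, i ≤ m → z ^ i * z⁻¹ ^ m = z⁻¹ ^ (m - i) := by
        intro i hi
        obtain ⟨j, rfl⟩ := Nat.exists_eq_add_of_le hi
        rw [Nat.add_sub_cancel_left, pow_add, ← mul_assoc, ← mul_pow, mul_inv_cancel₀ hz0, one_pow,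
          one_mul]
      have h2 : z⁻¹ = a ^ M' * w := by
        rw [hw]; field_simp
      have h3 : z⁻¹ ^ m + a ^ M * ∑ i ∈ Finset.range m, algebraMap K _ (f.coeff i) * z⁻¹ ^ (m - i)
          = 0 := by
        have h4 := congrArg (fun t => t * z⁻¹ ^ m) hQ0
        simp only [zero_mul] at h4
        rw [← h4, add_mul, one_mul, mul_assoc, Finset.sum_mul]
        congr 2
        refine Finset.sum_congr rfl fun i hi => ?_
        rw [mul_assoc, h1 i (Finset.mem_range.1 hi).le]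
      have h5 : a ^ (M' * m) * (w ^ m + a ^ N * ∑ i ∈ Finset.range m,
          algebraMap K _ (f.coeff i) * (a ^ (M' * (m - i)) * w ^ (m - i))) = 0 := by
        rw [hN] at h3
        exact smx_eq a w z⁻¹ m M' N _ h2 h3
      have h6 := (mul_eq_zero.1 h5).resolve_left (pow_ne_zero _ ha0)
      rw [Finset.range_eq_Ico, Finset.sum_eq_sum_Ico_succ_bot (by omega)] at h6
      rw [← h6, map_add, map_one, map_mul, map_pow, ← ha, Nat.sub_zero, mul_add, Finset.mul_sum]
      have h7 : ∀ i ∈ Finset.Ico 1 m, algebraMap K (AdjoinRoot v.1)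
          (π ^ N * (f.coeff i * π ^ (M' * (m - i)))) * w ^ (m - i)
          = a ^ N * (algebraMap K _ (f.coeff i) * (a ^ (M' * (m - i)) * w ^ (m - i))) := by
        intro i _
        rw [map_mul, map_mul, map_pow, map_pow, ← ha]
        ring
      rw [Finset.sum_congr rfl h7, pow_add]
      simp only [zero_add]
      ring
  have hξinv : ξ⁻¹ = a ^ n * (a ^ κ * (a ^ k * w)) := by
    rw [hw, hz, hM', pow_add]
    field_simp
  have haB : a ∈ B := hGL.pi_mem
  have hξB : ξ⁻¹ ∈ B := by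
    rw [hξinv]
    exact B.mul_mem (B.pow_mem haB _) (B.mul_mem (B.pow_mem haB _) (B.mul_mem (B.pow_mem haB _) hwB))
  -- the quotient
  set b := ∑ i ∈ Finset.range d, algebraMap K (AdjoinRoot v.1)
      (π ^ κ * (g.coeff i / g.leadingCoeff)) * (a ^ k * w) * ξ⁻¹ ^ (d - i - 1) with hb
  have hbB : b ∈ B := by
    refine B.sum_mem fun i hi => ?_
    exact B.mul_mem (B.mul_mem (hOL _ (hκ i (Finset.mem_range.1 hi)))
      (B.mul_mem (B.pow_mem haB _) hwB)) (B.pow_mem hξB _)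
  have hne : 1 + a ^ n * b ≠ 0 :=
    (hGRP (AdjoinRoot v.1) B a q E hGL.toGood0 n hn).2.2.2.2.1 b hbB
  refine ⟨Units.mk0 _ hne, ⟨b, hbB, rfl⟩, ?_⟩
  rw [Units.val_mk0, ← AdjoinRoot.aeval_eq, ← AdjoinRoot.aeval_eq, lm, map_mul, aeval_C, map_pow,
    aeval_X, ← hξ, ← hd]
  have hge : aeval ξ g = ∑ i ∈ Finset.range (d + 1), algebraMap K _ (g.coeff i) * ξ ^ i := by
    rw [aeval_eq_sum_range]
    refine Finset.sum_congr rfl fun i _ => ?_
    rw [Algebra.smul_def]
  rw [hge, Finset.sum_range_succ, add_mul, one_mul, hb, Finset.mul_sum, Finset.sum_mul]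
  rw [add_comm]
  congr 1
  refine Finset.sum_congr rfl fun i hi => ?_
  have hid := Finset.mem_range.1 hi
  have h8 : a ^ n * (algebraMap K (AdjoinRoot v.1) (π ^ κ * (g.coeff i / g.leadingCoeff))
      * (a ^ k * w) * ξ⁻¹ ^ (d - i - 1))
      = algebraMap K (AdjoinRoot v.1) (g.coeff i / g.leadingCoeff) * ξ⁻¹ ^ (d - i) := by
    have e1 : d - i = (d - i - 1) + 1 := by omega
    rw [e1, pow_succ, Nat.add_sub_cancel, map_mul, map_pow, ← ha]
    nth_rewrite 3 [hξinv]
    ring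
  rw [h8]
  have h9 : ξ⁻¹ ^ (d - i) * ξ ^ d = ξ ^ i := by
    have e1 : d = (d - i) + i := by omega
    conv_lhs => rw [show ξ ^ d = ξ ^ (d - i) * ξ ^ i from by rw [← pow_add]; congr 1]
    rw [← mul_assoc, ← mul_pow, inv_mul_cancel₀ hξ0, one_pow, one_mul]
  have h10 : algebraMap K (AdjoinRoot v.1) (g.coeff i / g.leadingCoeff) * ξ⁻¹ ^ (d - i)
      * (algebraMap K (AdjoinRoot v.1) g.leadingCoeff * ξ ^ d)
      = (algebraMap K (AdjoinRoot v.1) (g.coeff i / g.leadingCoeff)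
        * algebraMap K (AdjoinRoot v.1) g.leadingCoeff) * (ξ⁻¹ ^ (d - i) * ξ ^ d) := by ring
  rw [h10, h9, ← map_mul, div_mul_cancel₀ _ hlc]

end Pool.Agent.H19.KN
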