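import Pool.Agent.H67.KN.SLOT
import Pool.Agent.H67.KN.SMQ
import Pool.Agent.H67.KN.APW
import Pool.Agent.H67.KN.GRV
import Pool.Agent.H23.KN.WA2
import Pool.Agent.H23.KN.MIX
import Pool.Agent.H27.KN.GRP
import Pool.Agent.H27.KN.ROOT
import Pool.Agent.H27.KN.UMEM
import Pool.Agent.H42.KN.FPO
import Pool.Agent.H42.KN.INF
import Pool.Agent.H64.KN.APX
import Pool.Agent.H64.KN.GOODE
import Pool.Agent.H64.KN.RINT
import Pool.Agent.H70.KN.WA1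
import Pool.Agent.H34.KNA.TELE
import Pool.Agent.H34.KNA.TSL
import Pool.Agent.H72.KN.TID
import Pool.Agent.H62.MK.Tame
import Pool.Agent.H35.KN.PHI
import Pool.Agent.H19.KN.DISC
import Pool.Agent.H19.KN.SMX

/-!
# Project KEW, blocks ROOT and WA: the closed targets (everything but NETA and GRES)
-/

namespace Pool.Agent.H19.KN

open Pool.Agent.H62.MK

universe u

theorem ok_TID : T_TID.{u} := Pool.Agent.H72.KN.pf_TID
theorem ok_GRP : T_GRP.{u} := Pool.Agent.H27.KN.pf_GRP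
theorem ok_ROOT : T_ROOT.{u} := Pool.Agent.H27.KN.pf_ROOT ok_GRP
theorem ok_UMEM : T_UMEM.{u} := Pool.Agent.H27.KN.pf_UMEM
theorem ok_UMAP : T_UMAP.{u} := Pool.Agent.H27.KN.pf_UMAP
theorem ok_UEQ : T_UEQ.{u} := Pool.Agent.H27.KN.pf_UEQ ok_ROOT
theorem ok_SLOT : T_SLOT.{u} := Pool.Agent.H67.KN.pf_SLOT
theorem ok_TELE : T_TELE.{u} := Pool.Agent.H34.KNA.pf_TELE

theorem ok_TCU : T_TCU.{u} := by
  intro F κ _ _ D u hu
  exact ⟨fun x => tame_unit_cup_zero D u hu x, fun m x => tame_unit_cup D m u hu x⟩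

theorem ok_TZP : T_TZP.{u} := by
  intro F κ _ _ D m
  refine ⟨fun a ha => tame_sym_units D m a ha, fun p g hp hg => ?_⟩
  rw [tame_cup_sym_units D m p g hg, hp, one_smul]

theorem ok_TSL : T_TSL.{u} := Pool.Agent.H34.KNA.pf_TSL ok_SLOT ok_TCU ok_UMEM
theorem ok_FPO : T_FPO.{u} := Pool.Agent.H42.KN.pf_FPO
theorem ok_INF : T_INF.{u} := Pool.Agent.H42.KN.pf_INF ok_SLOT ok_TCU
theorem ok_GOODE : T_GOODE.{u} := Pool.Agent.H64.KN.pf_GOODE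
theorem ok_DISC : T_DISC.{u} := pf_DISC ok_GOODE
theorem ok_RINT : T_RINT.{u} := Pool.Agent.H64.KN.pf_RINT ok_GOODE
theorem ok_SMQ : T_SMQ.{u} := Pool.Agent.H67.KN.pf_SMQ ok_GOODE ok_GRP
theorem ok_SMX : T_SMX.{u} := pf_SMX ok_GOODE ok_GRP
theorem ok_APX : T_APX.{u} := Pool.Agent.H64.KN.pf_APX
theorem ok_APW : T_APW.{u} := Pool.Agent.H67.KN.pf_APW ok_GRP
theorem ok_MIX : T_MIX.{u} := Pool.Agent.H23.KN.pf_MIX ok_TID ok_GRP ok_UMEM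
theorem ok_WA1 : T_WA1.{u} := Pool.Agent.H70.KN.pf_WA1 ok_APW ok_UMEM ok_TELE
theorem ok_PHI : T_PHI.{u} := Pool.Agent.H35.KN.pf_PHI ok_APW ok_MIX ok_UMEM ok_GRP ok_TELE
theorem ok_WA2 : T_WA2.{u} := Pool.Agent.H23.KN.pf_WA2 ok_PHI ok_MIX ok_APW ok_UMEM ok_GRP
theorem ok_GRV : T_GRV.{u} := Pool.Agent.H67.KN.pf_GRV ok_TCU

end Pool.Agent.H19.KN
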