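import Pool.Agent.H88.KN.Targets

set_option autoImplicit false

namespace Pool.Agent.H19.KN

open Finset Pool.Agent.H88.KN

theorem count_up (a : ℤ → ℤ) (ha : ∀ i, a (i + 1) = a i + 1 ∨ a (i + 1) = a i - 1) (s : ℤ)
    (n : ℕ) : 2 * (((Finset.Ico s (s + n)).filter (fun i => a i < a (i + 1))).card : ℤ) =
      n + a (s + n) - a s := by
  induction n with
  | zero => simp
  | succ n ih =>
    have h1 : Finset.Ico s (s + ((n + 1 : ℕ) : ℤ)) = insert (s + n) (Finset.Ico s (s + n)) := by
      ext x
      simp only [Finset.mem_Ico, Finset.mem_insert]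
      push_cast
      omega
    rw [h1, Finset.filter_insert]
    have h2 : (s + n) ∉ (Finset.Ico s (s + n)).filter (fun i => a i < a (i + 1)) := by
      simp
    have h3 : s + ((n + 1 : ℕ) : ℤ) = s + n + 1 := by push_cast; ring
    rw [h3]
    split_ifs with h
    · rw [Finset.card_insert_of_notMem h2]
      push_cast
      rcases ha (s + n) with h4 | h4 <;> omega
    · rcases ha (s + n) with h4 | h4 <;> (push_cast; omega)

theorem pf_EC : T_EC := by
  intro a ha r s t hst hs ht hi
  obtain ⟨n, rfl⟩ : ∃ n : ℕ, t = s + n := ⟨(t - s).toNat, by omega⟩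
  have h := count_up a ha s n
  have h2 : (Finset.Ico s (s + n)).filter (fun i => a i < a (i + 1) ∧ r ≤ a i) =
      (Finset.Ico s (s + n)).filter (fun i => a i < a (i + 1)) := by
    apply Finset.filter_congr
    intro i hi2
    rw [Finset.mem_Ico] at hi2
    constructor
    · exact fun h => h.1
    · intro h3
      refine ⟨h3, ?_⟩
      rcases eq_or_lt_of_le hi2.1 with h4 | h4
      · rw [← h4, hs]
      · exact (hi i h4 hi2.2).le
  rw [h2, h, ht, hs]
  ring

end Pool.Agent.H19.KN
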