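import Pool.Agent.H88.KN.Targets

set_option autoImplicit false

namespace Pool.Agent.H19.KN

open Finset Pool.Agent.H88.KN

theorem val_int (M : ℕ) [NeZero M] (k : ℤ) (h0 : 0 ≤ k) (h1 : k < 2 * M) :
    (((k : ZMod (2 * M)).val : ℕ) : ℤ) = k := by
  rw [ZMod.val_intCast]
  push_cast
  exact Int.emod_eq_of_lt h0 h1

theorem T_eq_card (M : ℕ) [NeZero M] (j : ℕ) (z : ZMod (2 * M)) :
    T M j z = ((univ.filter (fun y : ZMod (2 * M) => y.val < j ∧ (y + z).val < j)).card : ℝ) := by
  unfold T
  rw [Finset.sum_boole]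

theorem card_window (j : ℕ) (d : ℤ) :
    ((Finset.Ico (max 0 (-d)) (min (j : ℤ) (j - d))).card : ℝ) = max 0 ((j : ℝ) - |(d : ℝ)|) := by
  rw [Int.card_Ico]
  rcases le_total 0 d with h | h
  · rw [max_eq_left (by omega : -d ≤ 0), min_eq_right (by omega : (j : ℤ) - d ≤ j), sub_zero,
      abs_of_nonneg (by exact_mod_cast h : (0 : ℝ) ≤ d)]
    rcases le_total d j with h2 | h2
    · rw [max_eq_right (by
        have : (d : ℝ) ≤ (j : ℝ) := by exact_mod_cast h2
        linarith)]
      have h3 : (((j : ℤ) - d).toNat : ℤ) = j - d := Int.toNat_of_nonneg (by omega)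
      exact_mod_cast h3
    · rw [max_eq_left (by
        have : (j : ℝ) ≤ (d : ℝ) := by exact_mod_cast h2
        linarith), Int.toNat_of_nonpos (by omega)]
      simp
  · rw [max_eq_right (by omega : 0 ≤ -d), min_eq_left (by omega : (j : ℤ) ≤ j - d),
      abs_of_nonpos (by exact_mod_cast h : (d : ℝ) ≤ 0)]
    rcases le_total (-d) j with h2 | h2
    · rw [max_eq_right (by
        have : (-d : ℝ) ≤ (j : ℝ) := by exact_mod_cast h2
        linarith)]
      have h3 : (((j : ℤ) - -d).toNat : ℤ) = j - -d := Int.toNat_of_nonneg (by omega)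
      exact_mod_cast h3
    · rw [max_eq_left (by
        have : (j : ℝ) ≤ (-d : ℝ) := by exact_mod_cast h2
        linarith), Int.toNat_of_nonpos (by omega)]
      simp

theorem pf_TG : T_TG := by
  intro M _ j hj x
  rw [T_eq_card, ← card_window]
  norm_cast
  have hM : 0 < M := Nat.pos_of_ne_zero (NeZero.ne M)
  have hmem : ∀ i ∈ Finset.Ico (max 0 (-x)) (min (j : ℤ) (j - x)), 0 ≤ i ∧ i < j ∧ 0 ≤ i + x ∧
      i + x < j := by
    intro i hi
    rw [Finset.mem_Ico, max_le_iff, lt_min_iff] at hi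
    omega
  apply Finset.card_le_card_of_injOn (fun i : ℤ => (i : ZMod (2 * M)))
  · intro i hi
    obtain ⟨h1, h2, h3, h4⟩ := hmem i (Finset.mem_coe.mp hi)
    simp only [Finset.coe_filter, Finset.mem_univ, true_and, Set.mem_ofPred_eq]
    have e1 := val_int M i h1 (by omega)
    have e2 := val_int M (i + x) h3 (by omega)
    push_cast at e2
    constructor
    · omega
    · omega
  · intro i hi i' hi' hii
    obtain ⟨h1, h2, h3, h4⟩ := hmem i (Finset.mem_coe.mp hi)
    obtain ⟨h1', h2', h3', h4'⟩ := hmem i' (Finset.mem_coe.mp hi')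
    have e1 := val_int M i h1 (by omega)
    have e2 := val_int M i' h1' (by omega)
    have e3 : (i : ZMod (2 * M)) = (i' : ZMod (2 * M)) := hii
    rw [← e1, ← e2, e3]

end Pool.Agent.H19.KN
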