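import Pool.Agent.H19.KN.TG

set_option autoImplicit false

namespace Pool.Agent.H19.KN

open Finset Pool.Agent.H88.KN

theorem pf_TL : T_TL := by
  intro M _ j hj z
  have hM : 0 < M := Nat.pos_of_ne_zero (NeZero.ne M)
  obtain ⟨d, hd, hd1, hd2⟩ : ∃ d : ℤ, (d : ZMod (2 * M)) = z ∧ -(M : ℤ) ≤ d ∧ d ≤ M := by
    have hz : ((z.val : ℕ) : ZMod (2 * M)) = z := ZMod.natCast_zmod_val z
    have hlt : z.val < 2 * M := ZMod.val_lt z
    by_cases h : z.val ≤ M
    · refine ⟨z.val, ?_, by omega, by omega⟩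
      push_cast
      exact hz
    · refine ⟨z.val - 2 * M, ?_, by omega, by omega⟩
      have h2 : ((2 * M : ℕ) : ZMod (2 * M)) = 0 := ZMod.natCast_self _
      push_cast at h2 ⊢
      rw [h2, hz, sub_zero]
  refine ⟨d, hd, ?_⟩
  rw [T_eq_card, ← card_window]
  norm_cast
  apply Finset.card_le_card_of_injOn (fun y : ZMod (2 * M) => (y.val : ℤ))
  · intro y hy
    simp only [Finset.coe_filter, Finset.mem_univ, true_and, Set.mem_ofPred_eq] at hy
    rw [Finset.mem_coe, Finset.mem_Ico, max_le_iff, lt_min_iff]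
    show ((0 : ℤ) ≤ (y.val : ℤ) ∧ -d ≤ (y.val : ℤ)) ∧ (y.val : ℤ) < j ∧ (y.val : ℤ) < j - d
    obtain ⟨h1, h2⟩ := hy
    have hyz : y + z = (((y.val : ℤ) + d : ℤ) : ZMod (2 * M)) := by
      push_cast
      rw [hd, ZMod.natCast_zmod_val]
    by_cases h3 : 0 ≤ (y.val : ℤ) + d
    · have e := val_int M ((y.val : ℤ) + d) h3 (by omega)
      rw [← hyz] at e
      omega
    · exfalso
      have h4 : (((y.val : ℤ) + d : ℤ) : ZMod (2 * M)) =
          (((y.val : ℤ) + d + 2 * M : ℤ) : ZMod (2 * M)) := by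
        have h5 : ((2 * M : ℕ) : ZMod (2 * M)) = 0 := ZMod.natCast_self _
        push_cast at h5 ⊢
        rw [h5, add_zero]
      have e := val_int M ((y.val : ℤ) + d + 2 * M) (by omega) (by omega)
      rw [← h4, ← hyz] at e
      omega
  · intro y _ y' _ h
    have h' : (y.val : ℤ) = (y'.val : ℤ) := h
    exact ZMod.val_injective _ (by exact_mod_cast h')

end Pool.Agent.H19.KN
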