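import Pool.Agent.H19.KN.TG

set_option autoImplicit false

namespace Pool.Agent.H19.KN

open Finset Pool.Agent.H88.KN

theorem card_val_lt (M : ℕ) [NeZero M] (j : ℕ) (hj : j ≤ M) :
    ∑ y : ZMod (2 * M), (if y.val < j then (1 : ℝ) else 0) = j := by
  have hM : 0 < M := Nat.pos_of_ne_zero (NeZero.ne M)
  rw [Finset.sum_boole]
  have h : (univ.filter (fun y : ZMod (2 * M) => y.val < j)).card = (Finset.range j).card := by
    apply Finset.card_bij (fun y _ => y.val)
    · intro y hy
      simpa using hy
    · intro y _ y' _ h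
      exact ZMod.val_injective _ h
    · intro i hi
      rw [Finset.mem_range] at hi
      have h2 : ((i : ZMod (2 * M))).val = i := ZMod.val_cast_of_lt (by omega)
      exact ⟨(i : ZMod (2 * M)), by simp [h2, hi], h2⟩
  rw [h, Finset.card_range]

theorem pf_WB : T_WB := by
  intro M _ j hj X c hX
  set w : ZMod (2 * M) → ℝ := fun y => if y.val < j then 1 else 0 with hw
  set m : ZMod (2 * M) := (M : ZMod (2 * M)) with hm
  have hT : ∀ z, T M j z = ∑ y, w y * w (y + z) := by
    intro z
    unfold T
    refine Finset.sum_congr rfl fun y _ => ?_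
    simp only [hw]
    split_ifs with h1 h2 h3 h3 <;> simp_all
  set WX : ZMod (2 * M) → ℝ := fun z => ∑ u, X u * w (z - u) with hWX
  have h1 : ∑ u, ∑ v, X u * X v * T M j (u - v + m) = ∑ z, WX z * WX (z + m) := by
    have e1 : ∀ u v, X u * X v * T M j (u - v + m) =
        ∑ z, (X u * w (z - u)) * (X v * w (z + m - v)) := by
      intro u v
      rw [hT, Finset.mul_sum, ← Equiv.sum_comp (Equiv.subRight u)]
      refine Finset.sum_congr rfl fun z _ => ?_
      simp only [Equiv.subRight_apply]
      have : z - u + (u - v + m) = z + m - v := by ring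
      rw [this]
      ring
    simp only [e1, hWX]
    rw [Finset.sum_congr rfl (fun u _ => Finset.sum_comm), Finset.sum_comm]
    refine Finset.sum_congr rfl fun z _ => ?_
    rw [Finset.sum_mul_sum]
  have h2 : ∀ z, WX z + WX (z + m) = c * j := by
    intro z
    have e1 : ∀ z', WX z' = ∑ y, X (z' - y) * w y := by
      intro z'
      simp only [hWX]
      rw [← Equiv.sum_comp (Equiv.subLeft z')]
      refine Finset.sum_congr rfl fun y _ => ?_
      simp only [Equiv.subLeft_apply]
      have : z' - (z' - y) = y := by ring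
      rw [this]
    rw [e1, e1, ← Finset.sum_add_distrib, ← card_val_lt M j hj, Finset.mul_sum]
    refine Finset.sum_congr rfl fun y _ => ?_
    have : z + m - y = z - y + m := by ring
    rw [this, ← hX (z - y)]
    simp only [hw]
    ring
  rw [h1]
  have hcard : (Fintype.card (ZMod (2 * M)) : ℝ) = 2 * M := by
    rw [ZMod.card]; push_cast; ring
  calc ∑ z, WX z * WX (z + m) ≤ ∑ _z : ZMod (2 * M), (c * j) ^ 2 / 4 := by
        refine Finset.sum_le_sum fun z _ => ?_
        have := h2 z
        rw [← this]
        nlinarith [sq_nonneg (WX z - WX (z + m))]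
    _ = (M : ℝ) * j ^ 2 * c ^ 2 / 2 := by
        rw [Finset.sum_const, Finset.card_univ, nsmul_eq_mul, hcard]
        ring

end Pool.Agent.H19.KN
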